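import Mathlib

/-! Definitions used in the statements on completely deterministic multiplicative functions. -/

open Finset MeasureTheory Filter Topology

namespace Pool.Agent.P.MP_e30989_nt

/-- the closed unit disc -/
abbrev Disc : Type := Metric.closedBall (0 : ℂ) 1

/-- two-sided sequences in the disc, with the product topology and its Borel sets -/
abbrev Sq : Type := ℤ → Disc

/-- the left shift -/
def shift (x : Sq) : Sq := fun n => x (n + 1)

/-- multiplicative: f 1 = 1 and f (m n) = f m f n for coprime positive m, n -/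
def IsMult (f : ℕ → Disc) : Prop :=
  (f 1 : ℂ) = 1 ∧ ∀ m n : ℕ, 0 < m → 0 < n → Nat.Coprime m n → (f (m * n) : ℂ) = f m * f n

/-- the point of the shift space given by f, extended by zero to n ≤ 0 -/
noncomputable def pt (f : ℕ → Disc) : Sq :=
  fun n => if 0 < n then f n.toNat else ⟨0, Metric.mem_closedBall_self zero_le_one⟩

/-- μ is a weak-star limit of the empirical measures of the orbit of f along some N k → ∞ -/
def IsFurst (f : ℕ → Disc) (μ : Measure Sq) : Prop :=
  IsProbabilityMeasure μ ∧ ∃ N : ℕ → ℕ, Tendsto N atTop atTop ∧ ∀ φ : C(Sq, ℝ),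
    Tendsto (fun k => (∑ n ∈ Icc 1 (N k), φ (shift^[n] (pt f))) / (N k : ℝ)) atTop
      (𝓝 (∫ x, φ x ∂μ))

/-- Shannon entropy of the join of the first r shifts of the finite partition P -/
noncomputable def blockH (μ : Measure Sq) {m : ℕ} (P : Sq → Fin m) (r : ℕ) : ℝ :=
  ∑ a : Fin r → Fin m, Real.negMulLog (μ.real {x | ∀ i : Fin r, P (shift^[i] x) = a i})

/-- zero Kolmogorov-Sinai entropy: every finite measurable partition has entropy rate zero -/
def ZeroEnt (μ : Measure Sq) : Prop :=
  ∀ (m : ℕ) (P : Sq → Fin m), Measurable P →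
    Tendsto (fun r : ℕ => blockH μ P r / (r : ℝ)) atTop (𝓝 0)

/-- completely deterministic for Cesaro averages -/
def CompDet (f : ℕ → Disc) : Prop := ∀ μ : Measure Sq, IsFurst f μ → ZeroEnt μ

/-- pretentious -/
def Pret (f : ℕ → Disc) : Prop :=
  ∃ (q : ℕ) (_ : 0 < q) (χ : DirichletCharacter ℂ q) (t : ℝ),
    Summable fun p : Nat.Primes =>
      (1 - ((f p : ℂ) * (starRingEnd ℂ) (χ ((p : ℕ) : ZMod q)) *
        ((p : ℕ) : ℂ) ^ (-(t * Complex.I))).re) / ((p : ℕ) : ℝ)

/-- the mean value of the modulus of f is zero -/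
def Trivial (f : ℕ → Disc) : Prop :=
  Tendsto (fun N : ℕ => (∑ n ∈ Icc 1 N, ‖(f n : ℂ)‖) / (N : ℝ)) atTop (𝓝 0)

/-- complex conjugation applied when the number of true entries of w is odd -/
noncomputable def cj {k : ℕ} (w : Fin k → Bool) (z : ℂ) : ℂ :=
  if Even (univ.filter fun i => w i = true).card then z else (starRingEnd ℂ) z

/-- the average over h in [0, L)^k of the integral of the alternating product of φ over the cube h;
its limit as L → ∞ is the 2^k-th power of the Host-Kra seminorm of order k -/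
noncomputable def cubeAvg (μ : Measure Sq) (k L : ℕ) (φ : Sq → ℂ) : ℂ :=
  (∑ h : Fin k → Fin L, ∫ x, ∏ w : Fin k → Bool,
    cj w (φ (shift^[∑ i, if w i = true then (h i : ℕ) else 0] x)) ∂μ) / (L : ℂ) ^ k

/-- the zeroth coordinate is orthogonal to every bounded function of Host-Kra seminorm zero of order
s + 1, that is, it is measurable for the Host-Kra factor of order s -/
def OrderLE (s : ℕ) (μ : Measure Sq) : Prop :=
  ∀ φ : Sq → ℂ, Measurable φ → (∀ x, ‖φ x‖ ≤ 1) →
    Tendsto (fun L : ℕ => cubeAvg μ (s + 1) L φ) atTop (𝓝 0) →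
      ∫ x, φ x * (starRingEnd ℂ) (x 0 : ℂ) ∂μ = 0

end Pool.Agent.P.MP_e30989_nt
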